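import Pool.Agent.L7h77.FX.Stm

/-! # Project FX, part CC (helper46): the slope -/

set_option autoImplicit false

namespace Pool.Agent.L7h46.FX

open Pool.Agent.L7h77.FX MeasureTheory

lemma exp_neg_le_of_sum (y b : ℝ) (hy : 0 ≤ y) (hb : 0 < b)
    (h : 1 / b ≤ ∑ m ∈ Finset.range 16, y ^ m / (m.factorial : ℝ)) :
    Real.exp (-y) ≤ b := by
  have h1 : 1 / b ≤ Real.exp y := h.trans (Real.sum_le_exp_of_nonneg hy 16)
  rw [Real.exp_neg]
  calc (Real.exp y)⁻¹ ≤ (1 / b)⁻¹ := inv_anti₀ (by positivity) h1
    _ = b := by simp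

lemma end_le (b φ : ℝ) (hb0 : 0 ≤ b) (hφ : 0 ≤ φ) (hb : b < 1)
    (h : 1 / (1 - b) ≤ ∑ m ∈ Finset.range 16, (b + φ * b ^ 2) ^ m / (m.factorial : ℝ)) :
    Real.exp (-b - φ * b ^ 2) ≤ 1 - b := by
  have := exp_neg_le_of_sum (b + φ * b ^ 2) (1 - b) (by positivity) (by linarith) h
  have e : -b - φ * b ^ 2 = -(b + φ * b ^ 2) := by ring
  rw [e]; exact this

lemma cc_meas : Measurable cc := by
  unfold cc
  refine Measurable.ite measurableSet_Iic measurable_const ?_
  refine Measurable.ite measurableSet_Iic measurable_const ?_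
  refine Measurable.ite measurableSet_Iic measurable_const ?_
  refine Measurable.ite measurableSet_Iic measurable_const ?_
  refine Measurable.ite measurableSet_Iic measurable_const ?_
  refine Measurable.ite measurableSet_Iic measurable_const ?_
  refine Measurable.ite measurableSet_Iic measurable_const measurable_const

theorem s_CC (hl : S_LOG) : S_CC := by
  refine ⟨cc_meas, ?_, ?_⟩
  · intro s
    unfold cc
    split_ifs <;> norm_num
  · intro s hs0 hs
    have key : ∀ b c : ℝ, 0 ≤ b → b < 1 → 1 / 2 ≤ 3 / 4 * (c - 4) → s ≤ b →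
        1 / (1 - b) ≤ ∑ m ∈ Finset.range 16, (b + 3 / 4 * (c - 4) * b ^ 2) ^ m / (m.factorial : ℝ) →
        1 / 2 ≤ 3 / 4 * (c - 4) ∧ Real.exp (-s - 3 / 4 * (c - 4) * s ^ 2) ≤ 1 - s := by
      intro b c hb0 hb1 hc hsb h
      refine ⟨hc, hl b (3 / 4 * (c - 4)) s hb0 hb1 hc ?_ hsb⟩
      exact end_le b _ hb0 (by linarith) hb1 h
    unfold cc
    split_ifs with h1 h2 h3 h4 h5 h6 h7
    · refine key (18 / 100) _ (by norm_num) (by norm_num) (by norm_num) h1 ?_
      simp only [Finset.sum_range_succ, Finset.sum_range_zero, Nat.factorial]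
      norm_num
    · refine key (30 / 100) _ (by norm_num) (by norm_num) (by norm_num) h2 ?_
      simp only [Finset.sum_range_succ, Finset.sum_range_zero, Nat.factorial]
      norm_num
    · refine key (38 / 100) _ (by norm_num) (by norm_num) (by norm_num) h3 ?_
      simp only [Finset.sum_range_succ, Finset.sum_range_zero, Nat.factorial]
      norm_num
    · refine key (48 / 100) _ (by norm_num) (by norm_num) (by norm_num) h4 ?_
      simp only [Finset.sum_range_succ, Finset.sum_range_zero, Nat.factorial]
      norm_num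
    · refine key (58 / 100) _ (by norm_num) (by norm_num) (by norm_num) h5 ?_
      simp only [Finset.sum_range_succ, Finset.sum_range_zero, Nat.factorial]
      norm_num
    · refine key (68 / 100) _ (by norm_num) (by norm_num) (by norm_num) h6 ?_
      simp only [Finset.sum_range_succ, Finset.sum_range_zero, Nat.factorial]
      norm_num
    · refine key (78 / 100) _ (by norm_num) (by norm_num) (by norm_num) h7 ?_
      simp only [Finset.sum_range_succ, Finset.sum_range_zero, Nat.factorial]
      norm_num
    · refine key (22 / 25) _ (by norm_num) (by norm_num) (by norm_num) hs ?_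
      simp only [Finset.sum_range_succ, Finset.sum_range_zero, Nat.factorial]
      norm_num

end Pool.Agent.L7h46.FX
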