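import Pool.Agent.L7h77.FX.Stm

/-!
# Project FX, part GL (helper46): lower bound for the integral of the weights
-/

set_option autoImplicit false

open MeasureTheory Set

namespace Pool.Agent.L7h46.FX

open Pool.Agent.W716.FV Pool.Agent.L7h77.FX

/-- the smooth part of the weight -/
noncomputable def w0 {n : ℕ} (η : E n) (z : ℝ × E n) : ℝ :=
  Real.exp (-‖η‖ ^ 2 / 2 - inner ℝ z.2 η - cc z.1 * z.1)

lemma w0_meas (hcc : Measurable cc) {n : ℕ} :
    Measurable (fun p : E n × (ℝ × E n) => ENNReal.ofReal (w0 p.1 p.2)) := by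
  apply ENNReal.measurable_ofReal.comp
  unfold w0
  apply Real.measurable_exp.comp
  apply Measurable.sub
  · apply Continuous.measurable
    fun_prop
  · exact (hcc.comp (measurable_fst.comp measurable_snd)).mul (measurable_fst.comp measurable_snd)

/-- the Gaussian integral -/
lemma int_w0 {n : ℕ} (z : ℝ × E n) :
    ENNReal.ofReal (√(2 * Real.pi) ^ n * Real.exp (-(cc z.1 * z.1))) ≤
      ∫⁻ η : E n, ENNReal.ofReal (w0 η z) := by
  have h1 : ∫ v : E n, Real.exp (-(1 / 2) * ‖v‖ ^ 2) = √(2 * Real.pi) ^ n := by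
    rw [GaussianFourier.integral_rexp_neg_mul_sq_norm (by norm_num)]
    rw [Real.sqrt_eq_rpow, ← Real.rpow_natCast, ← Real.rpow_mul (by positivity)]
    congr 1
    · ring
    · simp
      ring
  have hint : Integrable (fun v : E n => Real.exp (-(1 / 2) * ‖v‖ ^ 2)) := by
    by_contra hc
    rw [integral_undef hc] at h1
    have : (0 : ℝ) < √(2 * Real.pi) ^ n := by positivity
    linarith
  have h2 : ∫⁻ v : E n, ENNReal.ofReal (Real.exp (-(1 / 2) * ‖v‖ ^ 2)) =
      ENNReal.ofReal (√(2 * Real.pi) ^ n) := by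
    rw [← h1, ofReal_integral_eq_lintegral_ofReal hint]
    exact Filter.Eventually.of_forall fun _ => (Real.exp_pos _).le
  have h3 : ∫⁻ v : E n, ENNReal.ofReal (Real.exp (-(1 / 2) * ‖v + z.2‖ ^ 2)) =
      ENNReal.ofReal (√(2 * Real.pi) ^ n) := by
    rw [← h2]
    exact lintegral_add_right_eq_self
      (fun v : E n => ENNReal.ofReal (Real.exp (-(1 / 2) * ‖v‖ ^ 2))) z.2
  rw [ENNReal.ofReal_mul (by positivity), ← h3, mul_comm,
    ← lintegral_const_mul _ (by fun_prop)]
  apply lintegral_mono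
  intro v
  simp only
  rw [← ENNReal.ofReal_mul (Real.exp_pos _).le, ← Real.exp_add]
  apply ENNReal.ofReal_le_ofReal
  unfold w0
  apply Real.exp_le_exp.2
  have h4 : ‖v + z.2‖ ^ 2 = ‖v‖ ^ 2 + 2 * inner ℝ v z.2 + ‖z.2‖ ^ 2 := by
    rw [@norm_add_sq ℝ]
    simp
  rw [h4, real_inner_comm]
  nlinarith [sq_nonneg ‖z.2‖]

/-- the integral over `s` -/
lemma int_s (h1 : S_CC) (h2 : S_SI) (a e C : ℝ) (hC : 0 ≤ C) (ha0 : 0 ≤ a) (hae : a ≤ e)
    (ha : a ≤ 22 / 25) :
    ENNReal.ofReal (C * (198 / 1000 - e)) ≤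
      ∫⁻ s in Set.Ioc a (22 / 25), ENNReal.ofReal (C * Real.exp (-(cc s * s))) := by
  have hm : Measurable (fun s : ℝ => ENNReal.ofReal (Real.exp (-(cc s * s)))) :=
    ENNReal.measurable_ofReal.comp (Real.measurable_exp.comp ((h1.1.mul measurable_id).neg))
  have h3 : ∫⁻ s in Set.Ioc (0 : ℝ) (22 / 25), ENNReal.ofReal (Real.exp (-(cc s * s))) =
      (∫⁻ s in Set.Ioc (0 : ℝ) a, ENNReal.ofReal (Real.exp (-(cc s * s)))) +
      ∫⁻ s in Set.Ioc a (22 / 25), ENNReal.ofReal (Real.exp (-(cc s * s))) := by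
    rw [← Ioc_union_Ioc_eq_Ioc ha0 ha, lintegral_union measurableSet_Ioc]
    rw [Set.disjoint_left]
    intro x hx hx'
    exact absurd hx.2 (not_le.mpr hx'.1)
  have h4 : ∫⁻ s in Set.Ioc (0 : ℝ) a, ENNReal.ofReal (Real.exp (-(cc s * s))) ≤
      ENNReal.ofReal a := by
    calc ∫⁻ s in Set.Ioc (0 : ℝ) a, ENNReal.ofReal (Real.exp (-(cc s * s)))
        ≤ ∫⁻ s in Set.Ioc (0 : ℝ) a, 1 := by
          apply setLIntegral_mono measurable_const
          intro s hs
          have h5 := (h1.2.1 s).1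
          rw [← ENNReal.ofReal_one]
          apply ENNReal.ofReal_le_ofReal
          rw [Real.exp_le_one_iff]
          have := mul_nonneg (by linarith : (0 : ℝ) ≤ cc s) hs.1.le
          linarith
      _ = ENNReal.ofReal a := by simp
  have h5 : ENNReal.ofReal (198 / 1000 - a) ≤
      ∫⁻ s in Set.Ioc a (22 / 25), ENNReal.ofReal (Real.exp (-(cc s * s))) := by
    rw [ENNReal.ofReal_sub _ ha0]
    refine tsub_le_iff_left.mpr ?_
    calc ENNReal.ofReal (198 / 1000) ≤ _ := h2
      _ = _ := h3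
      _ ≤ _ := add_le_add_left h4 _
  calc ENNReal.ofReal (C * (198 / 1000 - e)) ≤ ENNReal.ofReal (C * (198 / 1000 - a)) := by
        apply ENNReal.ofReal_le_ofReal
        apply mul_le_mul_of_nonneg_left _ hC
        linarith
    _ = ENNReal.ofReal C * ENNReal.ofReal (198 / 1000 - a) := ENNReal.ofReal_mul hC
    _ ≤ ENNReal.ofReal C *
        ∫⁻ s in Set.Ioc a (22 / 25), ENNReal.ofReal (Real.exp (-(cc s * s))) := by gcongr
    _ = ∫⁻ s in Set.Ioc a (22 / 25), ENNReal.ofReal (C * Real.exp (-(cc s * s))) := by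
        rw [← lintegral_const_mul _ hm]
        simp_rw [ENNReal.ofReal_mul hC]

theorem s_GL (h1 : S_CC) (h2 : S_SI) : S_GL := by
  intro n ε hε hε2
  have hccm := h1.1
  set C : ℝ := √(2 * Real.pi) ^ n with hC
  have hC0 : 0 ≤ C := by positivity
  set A : Set (ℝ × E n) := {z : ℝ × E n | ‖z.2‖ ^ 2 / 6 < z.1} with hA
  set B : Set (ℝ × E n) := {z : ℝ × E n | ‖z.2‖ ≤ ε ∧ z.1 ≤ 22 / 25} with hB
  have hAm : MeasurableSet A := by
    apply IsOpen.measurableSet
    exact isOpen_lt (by fun_prop) (by fun_prop)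
  have hBm : MeasurableSet B := by
    have c1 : IsClosed {z : ℝ × E n | ‖z.2‖ ≤ ε} := isClosed_le (by fun_prop) (by fun_prop)
    have c2 : IsClosed {z : ℝ × E n | z.1 ≤ 22 / 25} := isClosed_le (by fun_prop) (by fun_prop)
    exact (c1.inter c2).measurableSet
  -- the weight as an indicator
  have hw : ∀ (η : E n) (z : ℝ × E n), ENNReal.ofReal (wx ε η z) =
      B.indicator (fun z => ENNReal.ofReal (w0 η z)) z := by
    intro η z
    unfold wx
    by_cases hz : z ∈ B
    · have hz' : ‖z.2‖ ≤ ε ∧ z.1 ≤ 22 / 25 := hz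
      rw [indicator_of_mem hz, if_pos hz']
      rfl
    · have hz' : ¬ (‖z.2‖ ≤ ε ∧ z.1 ≤ 22 / 25) := hz
      rw [indicator_of_notMem hz, if_neg hz']
      simp
  have g1 : ∫⁻ η : E n, ∫⁻ z in A, ENNReal.ofReal (wx ε η z) =
      ∫⁻ η : E n, ∫⁻ z in A ∩ B, ENNReal.ofReal (w0 η z) := by
    congr 1
    funext η
    simp_rw [hw]
    rw [lintegral_indicator hBm, Measure.restrict_restrict hBm, inter_comm]
  have g2 : ∫⁻ η : E n, ∫⁻ z in A ∩ B, ENNReal.ofReal (w0 η z) =
      ∫⁻ z in A ∩ B, ∫⁻ η : E n, ENNReal.ofReal (w0 η z) := by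
    apply lintegral_lintegral_swap
    exact (w0_meas hccm).aemeasurable
  rw [g1, g2]
  have g3 : ∫⁻ z in A ∩ B, ENNReal.ofReal (C * Real.exp (-(cc z.1 * z.1))) ≤
      ∫⁻ z in A ∩ B, ∫⁻ η : E n, ENNReal.ofReal (w0 η z) := by
    apply lintegral_mono
    intro z
    exact int_w0 z
  refine le_trans ?_ g3
  have hABm : MeasurableSet (A ∩ B) := hAm.inter hBm
  rw [← lintegral_indicator hABm]
  have hfm : Measurable ((A ∩ B).indicator
      fun z : ℝ × E n => ENNReal.ofReal (C * Real.exp (-(cc z.1 * z.1)))) := by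
    apply Measurable.indicator _ hABm
    apply ENNReal.measurable_ofReal.comp
    apply Measurable.const_mul
    apply Real.measurable_exp.comp
    exact ((hccm.comp measurable_fst).mul measurable_fst).neg
  rw [Measure.volume_eq_prod, lintegral_prod_symm _ hfm.aemeasurable]
  -- restrict to the ball
  have g4 : ∀ τ : E n, (Metric.closedBall (0 : E n) ε).indicator (fun _ =>
      ENNReal.ofReal (C * (198 / 1000 - ε ^ 2 / 6))) τ ≤
      ∫⁻ s : ℝ, (A ∩ B).indicator
        (fun z : ℝ × E n => ENNReal.ofReal (C * Real.exp (-(cc z.1 * z.1)))) (s, τ) := by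
    intro τ
    by_cases hτ : τ ∈ Metric.closedBall (0 : E n) ε
    · rw [indicator_of_mem hτ]
      rw [mem_closedBall_zero_iff] at hτ
      have hτ2 : ‖τ‖ ^ 2 ≤ ε ^ 2 := by
        have := norm_nonneg τ
        nlinarith
      have ha : ‖τ‖ ^ 2 / 6 ≤ 22 / 25 := by nlinarith
      have g5 := int_s h1 h2 (‖τ‖ ^ 2 / 6) (ε ^ 2 / 6) C hC0 (by positivity)
        (by linarith) ha
      have g6 : ∀ s : ℝ, (A ∩ B).indicator
          (fun z : ℝ × E n => ENNReal.ofReal (C * Real.exp (-(cc z.1 * z.1)))) (s, τ) =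
          (Set.Ioc (‖τ‖ ^ 2 / 6) (22 / 25 : ℝ)).indicator
            (fun s => ENNReal.ofReal (C * Real.exp (-(cc s * s)))) s := by
        intro s
        by_cases hs : s ∈ Set.Ioc (‖τ‖ ^ 2 / 6) (22 / 25 : ℝ)
        · rw [indicator_of_mem hs, indicator_of_mem]
          exact ⟨hs.1, hτ, hs.2⟩
        · rw [indicator_of_notMem hs, indicator_of_notMem]
          rintro ⟨h7, _, h8⟩
          exact hs ⟨h7, h8⟩
      simp_rw [g6]
      rw [lintegral_indicator measurableSet_Ioc]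
      exact g5
    · rw [indicator_of_notMem hτ]
      exact zero_le
  calc _ = ∫⁻ τ : E n, (Metric.closedBall (0 : E n) ε).indicator (fun _ =>
      ENNReal.ofReal (C * (198 / 1000 - ε ^ 2 / 6))) τ := by
        rw [lintegral_indicator Metric.isClosed_closedBall.measurableSet, lintegral_const,
          Measure.restrict_apply_univ]
    _ ≤ _ := lintegral_mono g4

end Pool.Agent.L7h46.FX
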