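import Pool.Agent.L7h77.FX.Stm

/-! # Project FX, part NF (helper46): a numerical constant -/

set_option autoImplicit false

namespace Pool.Agent.L7h46.FX

open Pool.Agent.L7h77.FX

theorem s_NF : S_NF := by
  unfold S_NF
  have h1 : (1.732 : ℝ) ≤ √3 := by
    apply Real.le_sqrt_of_sq_le
    norm_num
  have h2 : (1.6487 : ℝ) ≤ Real.exp (1 / 2) := by
    refine le_trans ?_ (Real.sum_le_exp_of_nonneg (by norm_num) 8)
    simp only [Finset.sum_range_succ, Finset.sum_range_zero, Nat.factorial]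
    norm_num
  have h6 : √(2 * Real.pi) ≤ 2.5067 := by
    rw [Real.sqrt_le_left (by norm_num)]
    have := Real.pi_lt_d6
    norm_num at this ⊢
    linarith
  have h7 : 0 < √(2 * Real.pi) := Real.sqrt_pos.2 (by positivity)
  rw [le_div_iff₀ h7]
  calc 9 / 40 * √(2 * Real.pi) ≤ 9 / 40 * 2.5067 := by linarith
    _ ≤ 1.732 * 1.6487 * (198 / 1000 - (1 / 50) ^ 2 / 6) := by norm_num
    _ ≤ _ := by gcongr

end Pool.Agent.L7h46.FX
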