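import Pool.Agent.L7h77.FX.Stm

/-! # Project FX, part SI (helper46): the numerical integral -/

set_option autoImplicit false

namespace Pool.Agent.L7h46.FX

open Pool.Agent.L7h77.FX MeasureTheory Set

lemma exp_neg_le (y b : ℝ) (hy : 0 ≤ y) (hb : 0 < b)
    (h : 1 / b ≤ ∑ m ∈ Finset.range 26, y ^ m / (m.factorial : ℝ)) :
    Real.exp (-y) ≤ b := by
  have h1 : 1 / b ≤ Real.exp y := h.trans (Real.sum_le_exp_of_nonneg hy 26)
  rw [Real.exp_neg]
  calc (Real.exp y)⁻¹ ≤ (1 / b)⁻¹ := inv_anti₀ (by positivity) h1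
    _ = b := by simp

lemma exp_neg_ge (y l u : ℝ) (hy : 0 ≤ y) (hy8 : y ≤ 8)
    (hu : ∑ m ∈ Finset.range 8, (y / 8) ^ m / (m.factorial : ℝ) +
      (y / 8) ^ 8 * (8 + 1) / (40320 * 8) ≤ u) (hl : l * u ^ 8 ≤ 1) :
    l ≤ Real.exp (-y) := by
  have h1 : Real.exp (y / 8) ≤ u := by
    refine le_trans (Real.exp_bound' (by linarith) (by linarith) (n := 8) (by norm_num)) ?_
    refine le_trans (le_of_eq ?_) hu
    norm_num [Nat.factorial]
  have h2 : Real.exp y = Real.exp (y / 8) ^ 8 := by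
    rw [← Real.exp_nat_mul]; congr 1; push_cast; ring
  have h0 : 0 < Real.exp (y / 8) := Real.exp_pos _
  have h3 : Real.exp y ≤ u ^ 8 := by rw [h2]; exact pow_le_pow_left₀ h0.le h1 8
  have hu0 : 0 < u ^ 8 := lt_of_lt_of_le (Real.exp_pos _) h3
  rw [Real.exp_neg]
  calc l ≤ (u ^ 8)⁻¹ := by rw [← one_div, le_div_iff₀ hu0]; exact hl
    _ ≤ (Real.exp y)⁻¹ := inv_anti₀ (Real.exp_pos _) h3

/-- the integral on a piece -/
lemma int_piece (c a b : ℝ) (hc : 0 < c) (hab : a ≤ b) :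
    ∫⁻ s in Set.Ioc a b, ENNReal.ofReal (Real.exp (-(c * s))) =
      ENNReal.ofReal ((Real.exp (-(c * a)) - Real.exp (-(c * b))) / c) := by
  have h1 : ∫ s in a..b, Real.exp (-(c * s)) =
      (Real.exp (-(c * a)) - Real.exp (-(c * b))) / c := by
    have hd : ∀ s ∈ Set.uIcc a b, HasDerivAt
        (fun s => -(1 / c) * Real.exp (-(c * s))) (Real.exp (-(c * s))) s := by
      intro s _
      have := ((((hasDerivAt_id s).const_mul c).neg).exp).const_mul (-(1 / c))
      have e : -(1 / c) * (Real.exp (-(c * s)) * -(c * 1)) = Real.exp (-(c * s)) := by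
        field_simp
      rw [← e]
      exact this
    rw [intervalIntegral.integral_eq_sub_of_hasDerivAt hd]
    · field_simp; ring
    · apply Continuous.intervalIntegrable
      fun_prop
  rw [intervalIntegral.integral_of_le hab] at h1
  rw [← h1, ofReal_integral_eq_lintegral_ofReal]
  · apply (Continuous.integrableOn_Icc (by fun_prop)).mono_set Ioc_subset_Icc_self
  · exact Filter.Eventually.of_forall fun _ => (Real.exp_pos _).le

lemma piece_le (c a b q la ub : ℝ) (hc : 0 < c) (hab : a ≤ b)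
    (hcc : ∀ s ∈ Set.Ioc a b, cc s = c) (h1 : la ≤ Real.exp (-(c * a)))
    (h2 : Real.exp (-(c * b)) ≤ ub) (hq : q ≤ (la - ub) / c) :
    ENNReal.ofReal q ≤ ∫⁻ s in Set.Ioc a b, ENNReal.ofReal (Real.exp (-(cc s * s))) := by
  have h3 : ∫⁻ s in Set.Ioc a b, ENNReal.ofReal (Real.exp (-(cc s * s))) =
      ∫⁻ s in Set.Ioc a b, ENNReal.ofReal (Real.exp (-(c * s))) := by
    apply setLIntegral_congr_fun measurableSet_Ioc
    intro s hs
    simp only
    rw [hcc s hs]
  rw [h3, int_piece c a b hc hab]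
  apply ENNReal.ofReal_le_ofReal
  refine hq.trans ?_
  gcongr

lemma split_Ioc (f : ℝ → ENNReal) (a b c : ℝ) (hab : a ≤ b) (hbc : b ≤ c) :
    ∫⁻ s in Set.Ioc a c, f s = (∫⁻ s in Set.Ioc a b, f s) + ∫⁻ s in Set.Ioc b c, f s := by
  rw [← Ioc_union_Ioc_eq_Ioc hab hbc, lintegral_union measurableSet_Ioc]
  rw [Set.disjoint_left]
  intro x hx hx'
  exact absurd hx.2 (not_le.mpr hx'.1)


lemma piece0 : ENNReal.ofReal (120899 / 1000000 : ℝ) ≤
    ∫⁻ s in Set.Ioc (0 : ℝ) (9 / 50 : ℝ), ENNReal.ofReal (Real.exp (-(cc s * s))) := by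
  refine piece_le (119 / 25 : ℝ) _ _ _ (1 / 1 : ℝ) (10613 / 25000 : ℝ) (by norm_num) (by norm_num) ?_ ?_ ?_ (by norm_num)
  · intro s hs
    obtain ⟨h1, h2⟩ := hs
    unfold cc
    rw [if_pos (by norm_num at h2 ⊢; linarith)]
    all_goals norm_num
  · simp
  · refine exp_neg_le _ _ (by norm_num) (by norm_num) ?_
    simp only [Finset.sum_range_succ, Finset.sum_range_zero, Nat.factorial]
    norm_num

lemma piece1 : ENNReal.ofReal (38087 / 1000000 : ℝ) ≤
    ∫⁻ s in Set.Ioc (9 / 50 : ℝ) (3 / 10 : ℝ), ENNReal.ofReal (Real.exp (-(cc s * s))) := by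
  refine piece_le (121 / 25 : ℝ) _ _ _ (26153 / 62500 : ℝ) (234103 / 1000000 : ℝ) (by norm_num) (by norm_num) ?_ ?_ ?_ (by norm_num)
  · intro s hs
    obtain ⟨h1, h2⟩ := hs
    unfold cc
    rw [if_neg (by norm_num at h1 ⊢; linarith)]
    rw [if_pos (by norm_num at h2 ⊢; linarith)]
    all_goals norm_num
  · refine exp_neg_ge _ _ (5575254199 / 5000000000 : ℝ) (by norm_num) (by norm_num) ?_ (by norm_num)
    simp only [Finset.sum_range_succ, Finset.sum_range_zero, Nat.factorial]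
    norm_num
  · refine exp_neg_le _ _ (by norm_num) (by norm_num) ?_
    simp only [Finset.sum_range_succ, Finset.sum_range_zero, Nat.factorial]
    norm_num

lemma piece2 : ENNReal.ofReal (3033 / 200000 : ℝ) ≤
    ∫⁻ s in Set.Ioc (3 / 10 : ℝ) (19 / 50 : ℝ), ENNReal.ofReal (Real.exp (-(cc s * s))) := by
  refine piece_le (491 / 100 : ℝ) _ _ _ (45847 / 200000 : ℝ) (77387 / 500000 : ℝ) (by norm_num) (by norm_num) ?_ ?_ ?_ (by norm_num)
  · intro s hs
    obtain ⟨h1, h2⟩ := hs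
    unfold cc
    rw [if_neg (by norm_num at h1 ⊢; linarith)]
    rw [if_neg (by norm_num at h1 ⊢; linarith)]
    rw [if_pos (by norm_num at h2 ⊢; linarith)]
    all_goals norm_num
  · refine exp_neg_ge _ _ (6010830423 / 5000000000 : ℝ) (by norm_num) (by norm_num) ?_ (by norm_num)
    simp only [Finset.sum_range_succ, Finset.sum_range_zero, Nat.factorial]
    norm_num
  · refine exp_neg_le _ _ (by norm_num) (by norm_num) ?_
    simp only [Finset.sum_range_succ, Finset.sum_range_zero, Nat.factorial]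
    norm_num

lemma piece3 : ENNReal.ofReal (11719 / 1000000 : ℝ) ≤
    ∫⁻ s in Set.Ioc (19 / 50 : ℝ) (12 / 25 : ℝ), ENNReal.ofReal (Real.exp (-(cc s * s))) := by
  refine piece_le (501 / 100 : ℝ) _ _ _ (149 / 1000 : ℝ) (18057 / 200000 : ℝ) (by norm_num) (by norm_num) ?_ ?_ ?_ (by norm_num)
  · intro s hs
    obtain ⟨h1, h2⟩ := hs
    unfold cc
    rw [if_neg (by norm_num at h1 ⊢; linarith)]
    rw [if_neg (by norm_num at h1 ⊢; linarith)]
    rw [if_neg (by norm_num at h1 ⊢; linarith)]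
    rw [if_pos (by norm_num at h2 ⊢; linarith)]
    all_goals norm_num
  · refine exp_neg_ge _ _ (12686774757 / 10000000000 : ℝ) (by norm_num) (by norm_num) ?_ (by norm_num)
    simp only [Finset.sum_range_succ, Finset.sum_range_zero, Nat.factorial]
    norm_num
  · refine exp_neg_le _ _ (by norm_num) (by norm_num) ?_
    simp only [Finset.sum_range_succ, Finset.sum_range_zero, Nat.factorial]
    norm_num

lemma piece4 : ENNReal.ofReal (6631 / 1000000 : ℝ) ≤
    ∫⁻ s in Set.Ioc (12 / 25 : ℝ) (29 / 50 : ℝ), ENNReal.ofReal (Real.exp (-(cc s * s))) := by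
  refine piece_le (257 / 50 : ℝ) _ _ _ (84821 / 1000000 : ℝ) (50733 / 1000000 : ℝ) (by norm_num) (by norm_num) ?_ ?_ ?_ (by norm_num)
  · intro s hs
    obtain ⟨h1, h2⟩ := hs
    unfold cc
    rw [if_neg (by norm_num at h1 ⊢; linarith)]
    rw [if_neg (by norm_num at h1 ⊢; linarith)]
    rw [if_neg (by norm_num at h1 ⊢; linarith)]
    rw [if_neg (by norm_num at h1 ⊢; linarith)]
    rw [if_pos (by norm_num at h2 ⊢; linarith)]
    all_goals norm_num
  · refine exp_neg_ge _ _ (2722490757 / 2000000000 : ℝ) (by norm_num) (by norm_num) ?_ (by norm_num)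
    simp only [Finset.sum_range_succ, Finset.sum_range_zero, Nat.factorial]
    norm_num
  · refine exp_neg_le _ _ (by norm_num) (by norm_num) ?_
    simp only [Finset.sum_range_succ, Finset.sum_range_zero, Nat.factorial]
    norm_num

lemma piece5 : ENNReal.ofReal (3521 / 1000000 : ℝ) ≤
    ∫⁻ s in Set.Ioc (29 / 50 : ℝ) (17 / 25 : ℝ), ENNReal.ofReal (Real.exp (-(cc s * s))) := by
  refine piece_le (533 / 100 : ℝ) _ _ _ (45437 / 1000000 : ℝ) (26667 / 1000000 : ℝ) (by norm_num) (by norm_num) ?_ ?_ ?_ (by norm_num)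
  · intro s hs
    obtain ⟨h1, h2⟩ := hs
    unfold cc
    rw [if_neg (by norm_num at h1 ⊢; linarith)]
    rw [if_neg (by norm_num at h1 ⊢; linarith)]
    rw [if_neg (by norm_num at h1 ⊢; linarith)]
    rw [if_neg (by norm_num at h1 ⊢; linarith)]
    rw [if_neg (by norm_num at h1 ⊢; linarith)]
    rw [if_pos (by norm_num at h2 ⊢; linarith)]
    all_goals norm_num
  · refine exp_neg_ge _ _ (7358550079 / 5000000000 : ℝ) (by norm_num) (by norm_num) ?_ (by norm_num)
    simp only [Finset.sum_range_succ, Finset.sum_range_zero, Nat.factorial]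
    norm_num
  · refine exp_neg_le _ _ (by norm_num) (by norm_num) ?_
    simp only [Finset.sum_range_succ, Finset.sum_range_zero, Nat.factorial]
    norm_num

lemma piece6 : ENNReal.ofReal (843 / 500000 : ℝ) ≤
    ∫⁻ s in Set.Ioc (17 / 25 : ℝ) (39 / 50 : ℝ), ENNReal.ofReal (Real.exp (-(cc s * s))) := by
  refine piece_le (561 / 100 : ℝ) _ _ _ (22041 / 1000000 : ℝ) (629 / 50000 : ℝ) (by norm_num) (by norm_num) ?_ ?_ ?_ (by norm_num)
  · intro s hs
    obtain ⟨h1, h2⟩ := hs
    unfold cc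
    rw [if_neg (by norm_num at h1 ⊢; linarith)]
    rw [if_neg (by norm_num at h1 ⊢; linarith)]
    rw [if_neg (by norm_num at h1 ⊢; linarith)]
    rw [if_neg (by norm_num at h1 ⊢; linarith)]
    rw [if_neg (by norm_num at h1 ⊢; linarith)]
    rw [if_neg (by norm_num at h1 ⊢; linarith)]
    rw [if_pos (by norm_num at h2 ⊢; linarith)]
    all_goals norm_num
  · refine exp_neg_ge _ _ (16109917819 / 10000000000 : ℝ) (by norm_num) (by norm_num) ?_ (by norm_num)
    simp only [Finset.sum_range_succ, Finset.sum_range_zero, Nat.factorial]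
    norm_num
  · refine exp_neg_le _ _ (by norm_num) (by norm_num) ?_
    simp only [Finset.sum_range_succ, Finset.sum_range_zero, Nat.factorial]
    norm_num

lemma piece7 : ENNReal.ofReal (621 / 1000000 : ℝ) ≤
    ∫⁻ s in Set.Ioc (39 / 50 : ℝ) (22 / 25 : ℝ), ENNReal.ofReal (Real.exp (-(cc s * s))) := by
  refine piece_le (307 / 50 : ℝ) _ _ _ (4159 / 500000 : ℝ) (563 / 125000 : ℝ) (by norm_num) (by norm_num) ?_ ?_ ?_ (by norm_num)
  · intro s hs
    obtain ⟨h1, h2⟩ := hs
    unfold cc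
    rw [if_neg (by norm_num at h1 ⊢; linarith)]
    rw [if_neg (by norm_num at h1 ⊢; linarith)]
    rw [if_neg (by norm_num at h1 ⊢; linarith)]
    rw [if_neg (by norm_num at h1 ⊢; linarith)]
    rw [if_neg (by norm_num at h1 ⊢; linarith)]
    rw [if_neg (by norm_num at h1 ⊢; linarith)]
    rw [if_neg (by norm_num at h1 ⊢; linarith)]
    all_goals norm_num
  · refine exp_neg_ge _ _ (909830311 / 500000000 : ℝ) (by norm_num) (by norm_num) ?_ (by norm_num)
    simp only [Finset.sum_range_succ, Finset.sum_range_zero, Nat.factorial]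
    norm_num
  · refine exp_neg_le _ _ (by norm_num) (by norm_num) ?_
    simp only [Finset.sum_range_succ, Finset.sum_range_zero, Nat.factorial]
    norm_num

theorem s_SI : S_SI := by
  unfold S_SI
  rw [split_Ioc _ 0 (9 / 50 : ℝ) (22 / 25) (by norm_num) (by norm_num)]
  rw [split_Ioc _ (9 / 50 : ℝ) (3 / 10 : ℝ) (22 / 25) (by norm_num) (by norm_num)]
  rw [split_Ioc _ (3 / 10 : ℝ) (19 / 50 : ℝ) (22 / 25) (by norm_num) (by norm_num)]
  rw [split_Ioc _ (19 / 50 : ℝ) (12 / 25 : ℝ) (22 / 25) (by norm_num) (by norm_num)]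
  rw [split_Ioc _ (12 / 25 : ℝ) (29 / 50 : ℝ) (22 / 25) (by norm_num) (by norm_num)]
  rw [split_Ioc _ (29 / 50 : ℝ) (17 / 25 : ℝ) (22 / 25) (by norm_num) (by norm_num)]
  rw [split_Ioc _ (17 / 25 : ℝ) (39 / 50 : ℝ) (22 / 25) (by norm_num) (by norm_num)]
  have hs : ENNReal.ofReal (198 / 1000) ≤ (ENNReal.ofReal (120899 / 1000000 : ℝ) + (ENNReal.ofReal (38087 / 1000000 : ℝ) + (ENNReal.ofReal (3033 / 200000 : ℝ) + (ENNReal.ofReal (11719 / 1000000 : ℝ) + (ENNReal.ofReal (6631 / 1000000 : ℝ) + (ENNReal.ofReal (3521 / 1000000 : ℝ) + (ENNReal.ofReal (843 / 500000 : ℝ) + ENNReal.ofReal (621 / 1000000 : ℝ)))))))) := by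
    rw [← ENNReal.ofReal_add (by norm_num) (by norm_num)]
    rw [← ENNReal.ofReal_add (by norm_num) (by norm_num)]
    rw [← ENNReal.ofReal_add (by norm_num) (by norm_num)]
    rw [← ENNReal.ofReal_add (by norm_num) (by norm_num)]
    rw [← ENNReal.ofReal_add (by norm_num) (by norm_num)]
    rw [← ENNReal.ofReal_add (by norm_num) (by norm_num)]
    rw [← ENNReal.ofReal_add (by norm_num) (by norm_num)]
    apply ENNReal.ofReal_le_ofReal
    norm_num
  refine hs.trans ?_
  exact (add_le_add piece0 (add_le_add piece1 (add_le_add piece2 (add_le_add piece3 (add_le_add piece4 (add_le_add piece5 (add_le_add piece6 piece7)))))))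

end Pool.Agent.L7h46.FX
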